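import Mathlib

open Cardinal Set Topology Filter

namespace Pool.Agent.Results.MP_941e3e_gt.LargeClosedSets

/-- A Hausdorff space is Stäckel-compact if some linear order on its points has the property that every
non-empty closed set has a least and a greatest element. -/
def StackelCompact (X : Type*) [TopologicalSpace X] : Prop :=
  T2Space X ∧ ∃ r : LinearOrder X, ∀ F : Set X, IsClosed F → F.Nonempty →
    (∃ a ∈ F, ∀ b ∈ F, r.le a b) ∧ ∃ a ∈ F, ∀ b ∈ F, r.le b a

universe u

/-- A system of distinct representatives for a family of large sets. -/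
theorem exists_sdr {J X : Type u} [Nonempty X] (C : J → Set X) (hC : ∀ i, #J ≤ #(C i)) :
    ∃ g : J → X, Function.Injective g ∧ ∀ i, g i ∈ C i := by
  classical
  obtain ⟨r, wo, hr⟩ := Cardinal.ord_eq J
  have wf : WellFounded r := wo.wf
  let g : J → X := WellFounded.fix wf (fun i ih =>
    if h : (C i \ {x | ∃ j, ∃ hj : r j i, ih j hj = x}).Nonempty then h.some else Classical.arbitrary X)
  have hg : ∀ i, g i = if h : (C i \ {x | ∃ j, ∃ _ : r j i, g j = x}).Nonempty then h.some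
      else Classical.arbitrary X := fun i => WellFounded.fix_eq _ _ i
  have hne : ∀ i, (C i \ {x | ∃ j, ∃ _ : r j i, g j = x}).Nonempty := by
    intro i
    by_contra hcon
    rw [Set.not_nonempty_iff_eq_empty, Set.diff_eq_empty] at hcon
    have h1 : #(C i) ≤ #{j // r j i} := by
      have h2 : {x | ∃ j, ∃ _ : r j i, g j = x} = Set.range (fun j : {j // r j i} => g j.1) := by
        ext x
        constructor
        · rintro ⟨j, hj, hx⟩
          exact ⟨⟨j, hj⟩, hx⟩
        · rintro ⟨⟨j, hj⟩, hx⟩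
          exact ⟨j, hj, hx⟩
      rw [h2] at hcon
      exact (Cardinal.mk_le_mk_of_subset hcon).trans Cardinal.mk_range_le
    have h3 : #{j // r j i} < #J := by
      exact Cardinal.card_typein_lt i hr
    exact absurd (hC i) (not_le.2 (h1.trans_lt h3))
  have hmem : ∀ i, g i ∈ C i \ {x | ∃ j, ∃ _ : r j i, g j = x} := by
    intro i
    rw [hg i, dif_pos (hne i)]
    exact (hne i).some_mem
  refine ⟨g, ?_, fun i => (hmem i).1⟩
  intro i j hij
  rcases trichotomous_of r i j with h | h | h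
  · exact absurd ⟨i, h, hij⟩ (hmem j).2
  · exact h
  · exact absurd ⟨j, h, hij.symm⟩ (hmem i).2

/-- If the points of a Hausdorff space split into two parts both of which meet every infinite closed set,
then the space is Stäckel-compact. -/
theorem of_split {X : Type u} [TopologicalSpace X] [T2Space X] (A : Set X)
    (hA : ∀ F : Set X, IsClosed F → F.Infinite → (F ∩ A).Nonempty ∧ (F \ A).Nonempty) :
    StackelCompact X := by
  classical
  obtain ⟨w, hw⟩ := exists_wellOrder X
  let φ : X → Lex (X ⊕ Xᵒᵈ) := fun x =>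
    if x ∈ A then toLex (Sum.inl x) else toLex (Sum.inr (OrderDual.toDual x))
  have hφ1 : ∀ x : X, x ∈ A → φ x = toLex (Sum.inl x) := fun x hx => if_pos hx
  have hφ2 : ∀ x : X, x ∉ A → φ x = toLex (Sum.inr (OrderDual.toDual x)) :=
    fun x hx => if_neg hx
  have hφ : Function.Injective φ := by
    intro x y hxy
    by_cases hx : x ∈ A <;> by_cases hy : y ∈ A
    · rw [hφ1 x hx, hφ1 y hy] at hxy
      exact Sum.inl.inj (toLex.injective hxy)
    · rw [hφ1 x hx, hφ2 y hy] at hxy
      exact absurd (toLex.injective hxy) Sum.inl_ne_inr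
    · rw [hφ2 x hx, hφ1 y hy] at hxy
      exact absurd (toLex.injective hxy) Sum.inr_ne_inl
    · rw [hφ2 x hx, hφ2 y hy] at hxy
      exact OrderDual.toDual.injective (Sum.inr.inj (toLex.injective hxy))
  refine ⟨inferInstance, LinearOrder.lift' φ hφ, ?_⟩
  intro F hF hFn
  have hmin : ∀ G : Set X, G.Nonempty → ∃ a ∈ G, ∀ b ∈ G, a ≤ b := by
    intro G hG
    obtain ⟨x, hx, hmin⟩ := WellFounded.has_min (wellFounded_lt (α := X)) G hG
    exact ⟨x, hx, fun b hb => not_lt.1 (hmin b hb)⟩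
  by_cases hfin : F.Finite
  · obtain ⟨a, ha, ha2⟩ := Set.exists_min_image F φ hfin hFn
    obtain ⟨b, hb, hb2⟩ := Set.exists_max_image F φ hfin hFn
    exact ⟨⟨a, ha, ha2⟩, b, hb, hb2⟩
  · obtain ⟨h1, h2⟩ := hA F hF hfin
    constructor
    · obtain ⟨a, ⟨haF, haA⟩, ha⟩ := hmin _ h1
      refine ⟨a, haF, fun b hb => ?_⟩
      show φ a ≤ φ b
      rw [hφ1 a haA]
      by_cases hbA : b ∈ A
      · rw [hφ1 b hbA, Sum.Lex.inl_le_inl_iff]
        exact ha b ⟨hb, hbA⟩
      · rw [hφ2 b hbA]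
        exact Sum.Lex.inl_le_inr _ _
    · obtain ⟨a, ⟨haF, haA⟩, ha⟩ := hmin _ h2
      refine ⟨a, haF, fun b hb => ?_⟩
      show φ b ≤ φ a
      rw [hφ2 a haA]
      by_cases hbA : b ∈ A
      · rw [hφ1 b hbA]
        exact Sum.Lex.inl_le_inr _ _
      · rw [hφ2 b hbA, Sum.Lex.inr_le_inr_iff]
        exact ha b ⟨hb, hbA⟩

/-- A Hausdorff space with a closed continuous map onto a subset of a Stäckel-compact space is Stäckel-compact
if the fibres are. -/
theorem of_closed_map {X Y : Type u} [TopologicalSpace X] [TopologicalSpace Y] [T2Space X] (f : X → Y)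
    (hf : IsClosedMap f) (hY : StackelCompact Y)
    (hfib : ∀ y : Y, StackelCompact (f ⁻¹' {y})) : StackelCompact X := by
  classical
  obtain ⟨-, rY, HY⟩ := hY
  have h2 := fun y => (hfib y).2
  choose r H using h2
  letI : LinearOrder Y := rY
  letI : ∀ y, LinearOrder (f ⁻¹' {y}) := r
  let φ : X → (Σₗ y : Y, (f ⁻¹' {y} : Set X)) := fun x => toLex ⟨f x, ⟨x, rfl⟩⟩
  let ψ : (Σₗ y : Y, (f ⁻¹' {y} : Set X)) → X := fun p => (ofLex p).2.1
  have hφ : Function.Injective φ := Function.LeftInverse.injective (g := ψ) (fun x => rfl)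
  refine ⟨inferInstance, LinearOrder.lift' φ hφ, ?_⟩
  intro F hF hFn
  obtain ⟨⟨y0, hy0, hy0min⟩, y1, hy1, hy1max⟩ := HY (f '' F) (hf F hF) (hFn.image f)
  have hG : ∀ y ∈ f '' F, IsClosed {z : (f ⁻¹' {y} : Set X) | z.1 ∈ F} ∧
      {z : (f ⁻¹' {y} : Set X) | z.1 ∈ F}.Nonempty := by
    rintro y ⟨x, hx, rfl⟩
    exact ⟨hF.preimage continuous_subtype_val, ⟨⟨x, rfl⟩, hx⟩⟩
  constructor
  · obtain ⟨⟨⟨a, ha⟩, haF, hamin⟩, -⟩ := H y0 _ (hG y0 hy0).1 (hG y0 hy0).2
    obtain rfl : f a = y0 := ha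
    refine ⟨a, haF, fun b hb => ?_⟩
    show φ a ≤ φ b
    rcases (show f a ≤ f b from hy0min (f b) ⟨b, hb, rfl⟩).lt_or_eq with h | h
    · exact Sigma.Lex.left _ _ h
    · have h3 : (⟨a, rfl⟩ : (f ⁻¹' {f a} : Set X)) ≤ ⟨b, h.symm⟩ := hamin ⟨b, h.symm⟩ hb
      have h4 : φ b = toLex ⟨f a, ⟨b, h.symm⟩⟩ := by
        have : (⟨f b, ⟨b, rfl⟩⟩ : Σ y : Y, (f ⁻¹' {y} : Set X)) = ⟨f a, ⟨b, h.symm⟩⟩ := by
          refine Sigma.subtype_ext h.symm rfl
        exact congrArg toLex this
      rw [h4]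
      exact Sigma.Lex.right _ _ h3
  · obtain ⟨-, ⟨a, ha⟩, haF, hamax⟩ := H y1 _ (hG y1 hy1).1 (hG y1 hy1).2
    obtain rfl : f a = y1 := ha
    refine ⟨a, haF, fun b hb => ?_⟩
    show φ b ≤ φ a
    rcases (show f b ≤ f a from hy1max (f b) ⟨b, hb, rfl⟩).lt_or_eq with h | h
    · exact Sigma.Lex.left _ _ h
    · have h3 : (⟨b, h⟩ : (f ⁻¹' {f a} : Set X)) ≤ ⟨a, rfl⟩ := hamax ⟨b, h⟩ hb
      have h4 : φ b = toLex ⟨f a, ⟨b, h⟩⟩ := by
        have : (⟨f b, ⟨b, rfl⟩⟩ : Σ y : Y, (f ⁻¹' {y} : Set X)) = ⟨f a, ⟨b, h⟩⟩ := by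
          refine Sigma.subtype_ext h rfl
        exact congrArg toLex this
      rw [h4]
      exact Sigma.Lex.right _ _ h3

/-- In ZFC: a Hausdorff space `X` with `|X| ^ ℵ₀ = |X|` all of whose infinite closed subsets have `|X|` points
is Stäckel-compact. -/
theorem of_large (X : Type u) [TopologicalSpace X] [T2Space X] (hω : #X ^ ℵ₀ = #X)
    (hbig : ∀ F : Set X, IsClosed F → F.Infinite → #F = #X) : StackelCompact X := by
  classical
  rcases finite_or_infinite X with hfin | hinf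
  · exact of_split ∅ (fun F _ hF => absurd (Set.toFinite F) hF)
  · have hX : ℵ₀ ≤ #X := Cardinal.aleph0_le_mk X
    let I : Type u := {e : ℕ → X // Function.Injective e}
    have hI : #(I × ULift.{u} Bool) ≤ #X := by
      have h1 : #I ≤ #X := by
        have h2 : #I ≤ #(ℕ → X) := Cardinal.mk_subtype_le _
        have h3 : #(ℕ → X) = #X ^ ℵ₀ := by simp
        rw [h3, hω] at h2
        exact h2
      rw [Cardinal.mk_prod]
      simp only [Cardinal.lift_id]
      calc #I * #(ULift.{u} Bool) ≤ #X * #X := by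
            apply mul_le_mul' h1
            exact (Cardinal.mk_le_aleph0).trans hX
        _ = #X := Cardinal.mul_eq_self hX
    obtain ⟨g, hg1, hg2⟩ := exists_sdr (J := I × ULift.{u} Bool) (X := X)
      (fun p => closure (Set.range p.1.1)) (fun p => by
        have h1 := hbig (closure (Set.range p.1.1)) isClosed_closure
          ((Set.infinite_range_of_injective p.1.2).mono subset_closure)
        rw [h1]
        exact hI)
    apply of_split {x | ∃ e : I, g (e, ⟨true⟩) = x}
    intro F hF hFi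
    let e0 := Set.Infinite.natEmbedding F hFi
    let e : I := ⟨fun n => (e0 n).1, fun a b hab => e0.injective (Subtype.ext hab)⟩
    have hsub : closure (Set.range e.1) ⊆ F := by
      apply closure_minimal _ hF
      rintro _ ⟨n, rfl⟩
      exact (e0 n).2
    refine ⟨⟨g (e, ⟨true⟩), hsub (hg2 (e, ⟨true⟩)), e, rfl⟩,
      ⟨g (e, ⟨false⟩), hsub (hg2 (e, ⟨false⟩)), ?_⟩⟩
    rintro ⟨e', he'⟩
    have := hg1 he'
    simp at this

/-- In ZFC: if a Hausdorff space `X` has a closed map `f` to a Stäckel-compact space such that every fibre `Z`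
of `f` is Stäckel-compact or satisfies `|Z| ^ ℵ₀ = |Z|` and has `|Z|` points in each of its infinite closed
subsets, then `X` is Stäckel-compact. -/
theorem result (X Y : Type u) [TopologicalSpace X] [TopologicalSpace Y] [T2Space X] (f : X → Y)
    (hf : IsClosedMap f) (hY : StackelCompact Y)
    (hfib : ∀ y : Y, StackelCompact (f ⁻¹' {y}) ∨ (#(f ⁻¹' {y}) ^ ℵ₀ = #(f ⁻¹' {y}) ∧
      ∀ F : Set (f ⁻¹' {y}), IsClosed F → F.Infinite → #F = #(f ⁻¹' {y}))) :
    StackelCompact X := by
  refine of_closed_map f hf hY (fun y => ?_)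
  rcases hfib y with h | ⟨h1, h2⟩
  · exact h
  · exact of_large _ h1 h2

end Pool.Agent.Results.MP_941e3e_gt.LargeClosedSets
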